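import Pool.Agent.Helper92.FR.GoalsA

/-!
# Few rows in a box: the kernel reproduces the density at the origin (packet ANA)
-/

namespace Pool.Agent.Helper50.FR

open MeasureTheory
open Pool.Agent.Helper92.FR

lemma continuous_TH (d : ℕ) (h : ℝ) (M : ℕ) : Continuous (fun y : Fin d → ℝ => TH h M y) := by
  unfold TH
  fun_prop

lemma vol_lt_top {d : ℕ} (R : ℝ) (S : Set (Fin d → ℝ)) (hS : ∀ y ∈ S, ∀ i, |y i| ≤ R) :
    volume S < ⊤ := by
  have h1 : S ⊆ Set.Icc (fun _ => -R) (fun _ => R) := by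
    intro y hy
    exact ⟨fun i => (abs_le.mp (hS y hy i)).1, fun i => (abs_le.mp (hS y hy i)).2⟩
  exact lt_of_le_of_lt (measure_mono h1) isCompact_Icc.measure_lt_top

lemma bdd_int {d : ℕ} (S : Set (Fin d → ℝ)) (hv : volume S < ⊤) (f : (Fin d → ℝ) → ℝ)
    (hf : Measurable f) (K : ℝ) (hK : ∀ y, |f y| ≤ K) : IntegrableOn f S := by
  have hfin : IsFiniteMeasure (volume.restrict S) := ⟨by simpa using hv⟩
  exact Integrable.of_bound hf.aestronglyMeasurable K (Filter.Eventually.of_forall hK)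

lemma split_bound {d : ℕ} (p : (Fin d → ℝ) → ℝ) (hpm : Measurable p) (hp0 : ∀ y, 0 ≤ p y)
    (B : ℝ) (hB : ∀ y, p y ≤ B) (T : (Fin d → ℝ) → ℝ) (hTc : Continuous T) (K : ℝ)
    (hT : ∀ y, 0 ≤ T y ∧ T y ≤ K) (ρ R : ℝ) (hρR : ρ ≤ R) (η : ℝ)
    (hcube : ∫ y in {y : Fin d → ℝ | ∀ i, |y i| ≤ R}, T y = 1)
    (hout : ∫ y in {y : Fin d → ℝ | (∀ i, |y i| ≤ R) ∧ ∃ i, ρ < |y i|}, T y ≤ η)
    (ε : ℝ) (hε0 : 0 ≤ ε) (hε1 : ε ≤ 1)
    (hε : ∀ y : Fin d → ℝ, (∀ i, |y i| ≤ ρ) → |p y - p 0| ≤ ε * p 0)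
    (hP : IsProbabilityMeasure (volume.withDensity fun y => ENNReal.ofReal (p y)))
    (τ : ℝ) (hτ : ((volume.withDensity fun y => ENNReal.ofReal (p y))
      {y | ∃ i, R < |y i|}).toReal ≤ τ) :
    |(∫ y, T y ∂(volume.withDensity fun y => ENNReal.ofReal (p y))) - p 0| ≤
      (ε + η) * p 0 + B * η + K * τ := by
  set P : Measure (Fin d → ℝ) := volume.withDensity fun y => ENNReal.ofReal (p y) with hPdef
  have habs : ∀ i : Fin d, Measurable (fun y : Fin d → ℝ => |y i|) := by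
    intro i
    exact (continuous_abs.comp (continuous_apply i)).measurable
  set S1 : Set (Fin d → ℝ) := {y | ∀ i, |y i| ≤ ρ} with hS1
  set S2 : Set (Fin d → ℝ) := {y | (∀ i, |y i| ≤ R) ∧ ∃ i, ρ < |y i|} with hS2
  set S3 : Set (Fin d → ℝ) := {y | ∃ i, R < |y i|} with hS3
  set Q : Set (Fin d → ℝ) := {y | ∀ i, |y i| ≤ R} with hQ
  have mQ : MeasurableSet Q := by
    rw [hQ, Set.ofPred_forall]
    exact MeasurableSet.iInter fun i => measurableSet_le (habs i) measurable_const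
  have mS1 : MeasurableSet S1 := by
    rw [hS1, Set.ofPred_forall]
    exact MeasurableSet.iInter fun i => measurableSet_le (habs i) measurable_const
  have mS3 : MeasurableSet S3 := by
    rw [hS3, Set.ofPred_exists]
    exact MeasurableSet.iUnion fun i => measurableSet_lt measurable_const (habs i)
  have mS2 : MeasurableSet S2 := by
    have h1 : S2 = Q ∩ ⋃ i, {y : Fin d → ℝ | ρ < |y i|} := by
      ext y
      simp [hS2, hQ]
    rw [h1]
    exact mQ.inter (MeasurableSet.iUnion fun i => measurableSet_lt measurable_const (habs i))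
  have hQ12 : Q = S1 ∪ S2 := by
    ext y
    constructor
    · intro hy
      by_cases h1 : ∀ i, |y i| ≤ ρ
      · exact Or.inl h1
      · right
        push Not at h1
        exact ⟨hy, h1⟩
    · rintro (hy | hy)
      · exact fun i => (hy i).trans hρR
      · exact hy.1
  have hd12 : Disjoint S1 S2 := by
    rw [Set.disjoint_left]
    rintro y h1 ⟨_, i, hi⟩
    exact absurd (h1 i) (not_le.mpr hi)
  have hQ3 : Qᶜ = S3 := by
    ext y
    simp [hQ, hS3]
  have hvQ : volume Q < ⊤ := vol_lt_top R Q (fun y hy => hy)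
  have hv1 : volume S1 < ⊤ := vol_lt_top ρ S1 (fun y hy => hy)
  have hv2 : volume S2 < ⊤ := vol_lt_top R S2 (fun y hy => hy.1)
  have hTm : Measurable T := hTc.measurable
  have hTabs : ∀ y, |T y| ≤ K := fun y => by rw [abs_of_nonneg (hT y).1]; exact (hT y).2
  have hB0 : 0 ≤ B := (hp0 0).trans (hB 0)
  have hK0 : 0 ≤ K := (hT 0).1.trans (hT 0).2
  have hpT : ∀ y, |p y * T y| ≤ B * K := by
    intro y
    rw [abs_of_nonneg (mul_nonneg (hp0 y) (hT y).1)]
    exact mul_le_mul (hB y) (hT y).2 (hT y).1 hB0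
  have hTP : Integrable T P :=
    Integrable.of_bound hTm.aestronglyMeasurable K (Filter.Eventually.of_forall hTabs)
  -- conversion
  have conv : ∀ S : Set (Fin d → ℝ), MeasurableSet S →
      ∫ y in S, T y ∂P = ∫ y in S, p y * T y := by
    intro S hS
    rw [hPdef, restrict_withDensity hS,
      integral_withDensity_eq_integral_toReal_smul hpm.ennreal_ofReal
        (Filter.Eventually.of_forall fun _ => ENNReal.ofReal_lt_top)]
    refine integral_congr_ae (Filter.Eventually.of_forall fun y => ?_)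
    simp only [ENNReal.toReal_ofReal (hp0 y), smul_eq_mul]
  -- total split
  have tot : ∫ y, T y ∂P = (∫ y in S1, p y * T y) + (∫ y in S2, p y * T y) +
      ∫ y in S3, T y ∂P := by
    rw [← integral_add_compl mQ hTP, hQ3]
    congr 1
    rw [hQ12, setIntegral_union hd12 mS2 hTP.integrableOn hTP.integrableOn, conv S1 mS1,
      conv S2 mS2]
  have i1 : IntegrableOn T S1 := bdd_int S1 hv1 T hTm K hTabs
  have i2 : IntegrableOn T S2 := bdd_int S2 hv2 T hTm K hTabs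
  have ip1 : IntegrableOn (fun y => p y * T y) S1 :=
    bdd_int S1 hv1 _ (hpm.mul hTm) (B * K) hpT
  have ip2 : IntegrableOn (fun y => p y * T y) S2 :=
    bdd_int S2 hv2 _ (hpm.mul hTm) (B * K) hpT
  have hsum : (∫ y in S1, T y) + (∫ y in S2, T y) = 1 := by
    rw [← hcube, hQ12, setIntegral_union hd12 mS2 i1 i2]
  have hI20 : 0 ≤ ∫ y in S2, T y := setIntegral_nonneg mS2 fun y _ => (hT y).1
  have hI10 : 0 ≤ ∫ y in S1, T y := setIntegral_nonneg mS1 fun y _ => (hT y).1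
  -- the third part
  have h30 : 0 ≤ ∫ y in S3, T y ∂P := setIntegral_nonneg mS3 fun y _ => (hT y).1
  have h3 : ∫ y in S3, T y ∂P ≤ K * τ := by
    have h1 : ∫ y in S3, T y ∂P ≤ ∫ _y in S3, K ∂P :=
      setIntegral_mono hTP.integrableOn (integrable_const K).integrableOn fun y => (hT y).2
    have h2 : ∫ _y in S3, K ∂P = K * (P S3).toReal := by
      rw [setIntegral_const, smul_eq_mul, Measure.real, mul_comm]
    rw [h2] at h1
    exact h1.trans (mul_le_mul_of_nonneg_left hτ hK0)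
  -- the second part
  have h20 : 0 ≤ ∫ y in S2, p y * T y :=
    setIntegral_nonneg mS2 fun y _ => mul_nonneg (hp0 y) (hT y).1
  have h2 : ∫ y in S2, p y * T y ≤ B * η := by
    have h1 : ∫ y in S2, p y * T y ≤ ∫ y in S2, B * T y :=
      setIntegral_mono ip2 (i2.const_mul B) fun y => mul_le_mul_of_nonneg_right (hB y) (hT y).1
    rw [integral_const_mul] at h1
    exact h1.trans (mul_le_mul_of_nonneg_left hout hB0)
  -- the first part
  have h1u : ∫ y in S1, p y * T y ≤ ((1 + ε) * p 0) * ∫ y in S1, T y := by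
    rw [← integral_const_mul]
    refine setIntegral_mono_on ip1 (i1.const_mul _) mS1 fun y hy => ?_
    refine mul_le_mul_of_nonneg_right ?_ (hT y).1
    have := (abs_le.mp (hε y hy)).2
    linarith
  have h1l : ((1 - ε) * p 0) * ∫ y in S1, T y ≤ ∫ y in S1, p y * T y := by
    rw [← integral_const_mul]
    refine setIntegral_mono_on (i1.const_mul _) ip1 mS1 fun y hy => ?_
    refine mul_le_mul_of_nonneg_right ?_ (hT y).1
    have := (abs_le.mp (hε y hy)).1
    linarith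
  have hη0 : 0 ≤ η := hI20.trans hout
  have hI1 : ∫ y in S1, T y ≤ 1 := by linarith
  have hI1' : 1 - η ≤ ∫ y in S1, T y := by linarith
  have hq0 := hp0 0
  have h1u' : ∫ y in S1, p y * T y ≤ (1 + ε) * p 0 :=
    h1u.trans (mul_le_of_le_one_right (by positivity) hI1)
  have h1l' : (1 - ε - η) * p 0 ≤ ∫ y in S1, p y * T y := by
    refine le_trans ?_ h1l
    have h4 : 0 ≤ (1 - ε) * p 0 := mul_nonneg (by linarith) hq0
    have h5 := mul_le_mul_of_nonneg_left hI1' h4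
    have h6 : 0 ≤ ε * η * p 0 := by positivity
    nlinarith
  have hBη : 0 ≤ B * η := mul_nonneg hB0 hη0
  have hKτ : 0 ≤ K * τ := h30.trans h3
  have hηp : 0 ≤ η * p 0 := mul_nonneg hη0 hq0
  rw [tot, abs_le]
  constructor
  · nlinarith
  · nlinarith

/-! ### Numerical bounds -/

lemma exp_three : (20 : ℝ) ≤ Real.exp 3 := by
  have h1 := Real.exp_one_gt_d9
  have h2 : Real.exp 3 = Real.exp 1 * Real.exp 1 * Real.exp 1 := by
    rw [← Real.exp_add, ← Real.exp_add]; norm_num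
  rw [h2]
  have h3 : (2.718 : ℝ) ≤ Real.exp 1 := by linarith
  have h4 : (2.718 : ℝ) * 2.718 ≤ Real.exp 1 * Real.exp 1 :=
    mul_le_mul h3 h3 (by norm_num) (Real.exp_pos 1).le
  have h5 : (2.718 : ℝ) * 2.718 * 2.718 ≤ Real.exp 1 * Real.exp 1 * Real.exp 1 :=
    mul_le_mul h4 h3 (by norm_num) (by positivity)
  linarith

lemma exp_six : (400 : ℝ) ≤ Real.exp 6 := by
  have h2 : Real.exp 6 = Real.exp 3 * Real.exp 3 := by
    rw [← Real.exp_add]; norm_num
  rw [h2]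
  have h3 := exp_three
  have h4 : (20 : ℝ) * 20 ≤ Real.exp 3 * Real.exp 3 :=
    mul_le_mul h3 h3 (by norm_num) (Real.exp_pos 3).le
  linarith

lemma log_ten : Real.log 10 ≤ 3 := by
  rw [Real.log_le_iff_le_exp (by norm_num)]
  linarith [exp_three]

lemma log_four_hundred : Real.log 400 ≤ 6 := by
  rw [Real.log_le_iff_le_exp (by norm_num)]
  exact exp_six

/-- `2 d ≤ X`, `2 q ≤ X` and `2 ≤ X`. -/
lemma X_facts (d n q X : ℕ) (hd : 1 ≤ d) (hq : 1 ≤ q) (hX : d * (Nat.log 2 n + 2) * q ≤ X) :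
    2 * d ≤ X ∧ 2 * q ≤ X ∧ 2 ≤ X ∧ d * (Nat.log 2 n + 2) ≤ X := by
  have h1 : d * (Nat.log 2 n + 2) ≤ X := le_trans (Nat.le_mul_of_pos_right _ hq) hX
  have h2 : 2 * d ≤ d * (Nat.log 2 n + 2) := by
    rw [mul_comm]
    exact Nat.mul_le_mul_left d (by omega)
  have h3 : 2 ≤ d * (Nat.log 2 n + 2) := by omega
  have h4 : 2 * q ≤ d * (Nat.log 2 n + 2) * q := Nat.mul_le_mul_right q h3
  exact ⟨h2.trans h1, h4.trans hX, h3.trans h1, h1⟩

lemma log_two_n (n : ℕ) (hn : 1 ≤ n) :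
    Real.log (2 * (n : ℝ)) ≤ 0.7 * ((Nat.log 2 n : ℝ) + 2) := by
  have h1 : n < 2 ^ (Nat.log 2 n + 1) := Nat.lt_pow_succ_log_self (by norm_num) n
  have h2 : (n : ℝ) ≤ 2 ^ (Nat.log 2 n + 1) := by exact_mod_cast h1.le
  have hn' : (0 : ℝ) < n := by exact_mod_cast hn
  have h3 : 2 * (n : ℝ) ≤ 2 ^ (Nat.log 2 n + 2) := by
    rw [pow_succ]
    linarith
  have h4 := Real.log_le_log (by positivity) h3
  rw [Real.log_pow] at h4
  have h5 : Real.log 2 ≤ 0.7 := by linarith [Real.log_two_lt_d9]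
  have h6 : (0 : ℝ) ≤ ((Nat.log 2 n + 2 : ℕ) : ℝ) := by positivity
  have h7 := mul_le_mul_of_nonneg_left h5 h6
  push_cast at h4 h7
  linarith

lemma plow_pos (d : ℕ) (hd : 1 ≤ d) : 0 < plow d := by
  have : (0 : ℝ) < d := by exact_mod_cast hd
  unfold plow
  positivity

lemma plow_le_one (d : ℕ) (hd : 1 ≤ d) : plow d ≤ 1 := by
  have h1 : (1 : ℝ) ≤ d := by exact_mod_cast hd
  have h2 : (1 : ℝ) ≤ (400 * (d : ℝ)) ^ d := one_le_pow₀ (by linarith)
  unfold plow
  rw [div_le_one (by positivity)]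
  exact le_trans (by norm_num) h2

lemma A_bound (d n q X : ℕ) (hd : 1 ≤ d) (hdn : d ≤ n) (hq : 1 ≤ q)
    (hX : d * (Nat.log 2 n + 2) * q ≤ X) :
    Real.log ((2 * (n : ℝ)) ^ d / plow d) ≤ 30 * X := by
  obtain ⟨h2d, h2q, h2, hdL⟩ := X_facts d n q X hd hq hX
  have hn1 : 1 ≤ n := hd.trans hdn
  have hd' : (1 : ℝ) ≤ d := by exact_mod_cast hd
  have hn' : (1 : ℝ) ≤ n := by exact_mod_cast hn1
  have hdn' : (d : ℝ) ≤ n := by exact_mod_cast hdn
  have hX2 : (2 : ℝ) ≤ X := by exact_mod_cast h2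
  have h2d' : 2 * (d : ℝ) ≤ X := by exact_mod_cast h2d
  have hdL' : (d : ℝ) * ((Nat.log 2 n : ℝ) + 2) ≤ X := by exact_mod_cast hdL
  have e1 : Real.log ((2 * (n : ℝ)) ^ d / plow d) =
      d * Real.log (2 * (n : ℝ)) - (Real.log 5 - 15 * Real.log 10 -
        d * (Real.log 400 + Real.log d)) := by
    rw [Real.log_div (by positivity) (plow_pos d hd).ne', Real.log_pow]
    have hl : Real.log (400 * (d : ℝ)) = Real.log 400 + Real.log d :=
      Real.log_mul (by norm_num) (by positivity)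
    unfold plow
    rw [Real.log_div (by norm_num) (by positivity), Real.log_div (by norm_num) (by norm_num),
      Real.log_pow, Real.log_pow, hl]
    norm_num
  rw [e1]
  have e2 : (d : ℝ) * Real.log (2 * (n : ℝ)) ≤ 0.7 * X := by
    have h3 := mul_le_mul_of_nonneg_left (log_two_n n hn1) (by linarith : (0 : ℝ) ≤ d)
    linarith
  have e3 : Real.log (d : ℝ) ≤ Real.log (2 * (n : ℝ)) :=
    Real.log_le_log (by linarith) (by linarith)
  have e4 : 0 ≤ Real.log 5 := Real.log_nonneg (by norm_num)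
  have e5 := log_ten
  have e6 := log_four_hundred
  have e7 : (d : ℝ) * Real.log 400 ≤ d * 6 := mul_le_mul_of_nonneg_left e6 (by linarith)
  have e8 : (d : ℝ) * Real.log d ≤ d * Real.log (2 * (n : ℝ)) :=
    mul_le_mul_of_nonneg_left e3 (by linarith)
  nlinarith

lemma ten_pow_le (k : ℕ) : (10 : ℝ) ^ k ≤ Real.exp (3 * k) := by
  have h1 : (10 : ℝ) ≤ Real.exp 3 := by linarith [exp_three]
  calc (10 : ℝ) ^ k ≤ Real.exp 3 ^ k := pow_le_pow_left₀ (by norm_num) h1 k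
    _ = Real.exp (3 * k) := by rw [← Real.exp_nat_mul]; ring_nf

lemma X_pow_le (X k : ℕ) : (X : ℝ) ^ k ≤ Real.exp (k * X) := by
  have h1 : (X : ℝ) ≤ Real.exp X := by linarith [Real.add_one_le_exp (X : ℝ)]
  calc (X : ℝ) ^ k ≤ Real.exp X ^ k := pow_le_pow_left₀ (by positivity) h1 k
    _ = Real.exp (k * X) := by rw [← Real.exp_nat_mul]

lemma cast_M (X : ℕ) : ((10 ^ 30 * X ^ 12 : ℕ) : ℝ) = 10 ^ 30 * (X : ℝ) ^ 12 := by
  rw [Nat.cast_mul, Nat.cast_pow, Nat.cast_pow]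
  norm_num

/-- The second error term. -/
lemma eta_bound (d n q X : ℕ) (hd : 1 ≤ d) (hdn : d ≤ n) (hq : 1 ≤ q)
    (hX : d * (Nat.log 2 n + 2) * q ≤ X) :
    (2 * (n : ℝ)) ^ d * (2 * d * ((10 ^ 30 * X ^ 12 : ℕ) : ℝ) *
      Real.exp (-(((10 ^ 30 * X ^ 12 : ℕ) : ℝ) * (1 / (200 * (X : ℝ) ^ 2)) ^ 2 *
        (1 / 10 ^ 9 / (X : ℝ) ^ 3) ^ 2 / 4))) ≤ plow d / (100 * q) := by
  obtain ⟨h2d, h2q, h2, hdL⟩ := X_facts d n q X hd hq hX
  have hX2 : (2 : ℝ) ≤ X := by exact_mod_cast h2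
  have h2d' : 2 * (d : ℝ) ≤ X := by exact_mod_cast h2d
  have h2q' : 2 * (q : ℝ) ≤ X := by exact_mod_cast h2q
  have hq' : (1 : ℝ) ≤ q := by exact_mod_cast hq
  have hd' : (1 : ℝ) ≤ d := by exact_mod_cast hd
  have hn' : (1 : ℝ) ≤ n := by exact_mod_cast hd.trans hdn
  have hc := plow_pos d hd
  have hexp : (((10 ^ 30 * X ^ 12 : ℕ) : ℝ) * (1 / (200 * (X : ℝ) ^ 2)) ^ 2 *
        (1 / 10 ^ 9 / (X : ℝ) ^ 3) ^ 2 / 4) = 6250000 * (X : ℝ) ^ 2 := by
    rw [cast_M]
    field_simp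
    norm_num
  rw [hexp]
  have hA : (2 * (n : ℝ)) ^ d ≤ plow d * Real.exp (30 * X) := by
    have h3 := A_bound d n q X hd hdn hq hX
    rw [Real.log_le_iff_le_exp (by positivity), div_le_iff₀ hc] at h3
    linarith
  have hM : 2 * d * ((10 ^ 30 * X ^ 12 : ℕ) : ℝ) ≤ Real.exp (90 + 13 * X) := by
    rw [cast_M]
    have h3 := ten_pow_le 30
    have h4 := X_pow_le X 13
    have h5 : 2 * (d : ℝ) * (10 ^ 30 * (X : ℝ) ^ 12) ≤ 10 ^ 30 * (X : ℝ) ^ 13 := by
      have : 2 * (d : ℝ) * (10 ^ 30 * (X : ℝ) ^ 12) ≤ X * (10 ^ 30 * (X : ℝ) ^ 12) :=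
        mul_le_mul_of_nonneg_right h2d' (by positivity)
      calc 2 * (d : ℝ) * (10 ^ 30 * (X : ℝ) ^ 12) ≤ X * (10 ^ 30 * (X : ℝ) ^ 12) := this
        _ = 10 ^ 30 * (X : ℝ) ^ 13 := by ring
    refine h5.trans ?_
    rw [Real.exp_add]
    have e1 : (3 : ℝ) * (30 : ℕ) = 90 := by norm_num
    rw [e1] at h3
    refine mul_le_mul h3 ?_ (by positivity) (Real.exp_pos _).le
    exact_mod_cast h4
  have h100 : 100 * (q : ℝ) ≤ Real.exp (6 + X) := by
    have h3 := ten_pow_le 2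
    have h4 := X_pow_le X 1
    have e1 : (3 : ℝ) * (2 : ℕ) = 6 := by norm_num
    rw [e1] at h3
    rw [Real.exp_add]
    have h5 : (10 : ℝ) ^ 2 * X ≤ Real.exp 6 * Real.exp X := by
      refine mul_le_mul h3 ?_ (by positivity) (Real.exp_pos _).le
      simpa using h4
    nlinarith
  rw [le_div_iff₀ (by positivity)]
  have key : Real.exp (30 * X) * (Real.exp (90 + 13 * X) *
      Real.exp (-(6250000 * (X : ℝ) ^ 2))) * Real.exp (6 + X) ≤ 1 := by
    rw [← Real.exp_add, ← Real.exp_add, ← Real.exp_add, Real.exp_le_one_iff]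
    nlinarith
  calc (2 * (n : ℝ)) ^ d * (2 * d * ((10 ^ 30 * X ^ 12 : ℕ) : ℝ) *
      Real.exp (-(6250000 * (X : ℝ) ^ 2))) * (100 * q)
      ≤ (plow d * Real.exp (30 * X)) * (Real.exp (90 + 13 * X) *
        Real.exp (-(6250000 * (X : ℝ) ^ 2))) * Real.exp (6 + X) := by
        refine mul_le_mul (mul_le_mul hA ?_ (by positivity) (by positivity)) h100 (by positivity)
          (by positivity)
        exact mul_le_mul_of_nonneg_right hM (Real.exp_pos _).le
    _ = plow d * (Real.exp (30 * X) * (Real.exp (90 + 13 * X) *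
        Real.exp (-(6250000 * (X : ℝ) ^ 2))) * Real.exp (6 + X)) := by ring
    _ ≤ plow d * 1 := mul_le_mul_of_nonneg_left key hc.le
    _ = plow d := mul_one _

/-- The third error term. -/
lemma tail_bound (d n q X : ℕ) (hd : 1 ≤ d) (hdn : d ≤ n) (hq : 1 ≤ q)
    (hX : d * (Nat.log 2 n + 2) * q ≤ X) :
    ((1 / (200 * (X : ℝ) ^ 2)) * ((10 ^ 30 * X ^ 12 : ℕ) : ℝ) / Real.pi) ^ d *
      (8 * d * Real.exp (-(Real.pi / (1 / (200 * (X : ℝ) ^ 2)) - 1) / 4)) ≤
      plow d / (100 * q) := by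
  obtain ⟨h2d, h2q, h2, hdL⟩ := X_facts d n q X hd hq hX
  have hX2 : (2 : ℝ) ≤ X := by exact_mod_cast h2
  have h2d' : 2 * (d : ℝ) ≤ X := by exact_mod_cast h2d
  have h2q' : 2 * (q : ℝ) ≤ X := by exact_mod_cast h2q
  have hq' : (1 : ℝ) ≤ q := by exact_mod_cast hq
  have hd' : (1 : ℝ) ≤ d := by exact_mod_cast hd
  have hn' : (1 : ℝ) ≤ n := by exact_mod_cast hd.trans hdn
  have hc := plow_pos d hd
  have hpi := Real.pi_gt_three
  have hA : 1 ≤ plow d * Real.exp (30 * X) := by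
    have h3 := A_bound d n q X hd hdn hq hX
    rw [Real.log_le_iff_le_exp (by positivity), div_le_iff₀ hc] at h3
    have h4 : (1 : ℝ) ≤ (2 * (n : ℝ)) ^ d := one_le_pow₀ (by linarith)
    linarith
  have hK : ((1 / (200 * (X : ℝ) ^ 2)) * ((10 ^ 30 * X ^ 12 : ℕ) : ℝ) / Real.pi) ^ d ≤
      Real.exp (45 * X + 5 * X ^ 2) := by
    have h3 : (1 / (200 * (X : ℝ) ^ 2)) * ((10 ^ 30 * X ^ 12 : ℕ) : ℝ) / Real.pi ≤
        Real.exp (90 + 10 * X) := by
      have e0 : (1 / (200 * (X : ℝ) ^ 2)) * ((10 ^ 30 * X ^ 12 : ℕ) : ℝ) / Real.pi =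
          (10 ^ 30 * (X : ℝ) ^ 10) / (200 * Real.pi) := by
        rw [cast_M]
        field_simp
      rw [e0]
      have e1 : (10 ^ 30 * (X : ℝ) ^ 10) / (200 * Real.pi) ≤ 10 ^ 30 * (X : ℝ) ^ 10 := by
        apply div_le_self (by positivity)
        linarith
      refine e1.trans ?_
      have h3 := ten_pow_le 30
      have h4 := X_pow_le X 10
      have e2 : (3 : ℝ) * (30 : ℕ) = 90 := by norm_num
      rw [e2] at h3
      rw [Real.exp_add]
      refine mul_le_mul h3 ?_ (by positivity) (Real.exp_pos _).le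
      exact_mod_cast h4
    calc ((1 / (200 * (X : ℝ) ^ 2)) * ((10 ^ 30 * X ^ 12 : ℕ) : ℝ) / Real.pi) ^ d
        ≤ Real.exp (90 + 10 * X) ^ d := pow_le_pow_left₀ (by positivity) h3 d
      _ = Real.exp (d * (90 + 10 * X)) := by rw [← Real.exp_nat_mul]
      _ ≤ Real.exp (45 * X + 5 * X ^ 2) := by
        apply Real.exp_le_exp.mpr
        nlinarith
  have h8 : 8 * (d : ℝ) ≤ Real.exp (3 + X) := by
    have h4 : (X : ℝ) ≤ Real.exp X := by linarith [Real.add_one_le_exp (X : ℝ)]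
    rw [Real.exp_add]
    have h5 : 20 * (X : ℝ) ≤ Real.exp 3 * Real.exp X :=
      mul_le_mul exp_three h4 (by positivity) (Real.exp_pos _).le
    linarith
  have hE : Real.exp (-(Real.pi / (1 / (200 * (X : ℝ) ^ 2)) - 1) / 4) ≤
      Real.exp (-(150 * (X : ℝ) ^ 2) + 1) := by
    apply Real.exp_le_exp.mpr
    have e0 : Real.pi / (1 / (200 * (X : ℝ) ^ 2)) = Real.pi * (200 * (X : ℝ) ^ 2) := by
      rw [div_div_eq_mul_div, div_one]
    rw [e0]
    nlinarith [mul_nonneg (sub_nonneg.mpr hpi.le) (sq_nonneg (X : ℝ))]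
  have h100 : 100 * (q : ℝ) ≤ Real.exp (6 + X) := by
    have h3 := ten_pow_le 2
    have h4 := X_pow_le X 1
    have e1 : (3 : ℝ) * (2 : ℕ) = 6 := by norm_num
    rw [e1] at h3
    rw [Real.exp_add]
    have h5 : (10 : ℝ) ^ 2 * X ≤ Real.exp 6 * Real.exp X := by
      refine mul_le_mul h3 ?_ (by positivity) (Real.exp_pos _).le
      simpa using h4
    nlinarith
  rw [le_div_iff₀ (by positivity)]
  have key : Real.exp (30 * X) * (Real.exp (45 * X + 5 * X ^ 2) * (Real.exp (3 + X) *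
      Real.exp (-(150 * (X : ℝ) ^ 2) + 1))) * Real.exp (6 + X) ≤ 1 := by
    rw [← Real.exp_add, ← Real.exp_add, ← Real.exp_add, ← Real.exp_add, Real.exp_le_one_iff]
    nlinarith
  set G : ℝ := Real.exp (45 * X + 5 * X ^ 2) * (Real.exp (3 + X) *
      Real.exp (-(150 * (X : ℝ) ^ 2) + 1)) * Real.exp (6 + X) with hG
  have hG0 : 0 ≤ G := by positivity
  calc ((1 / (200 * (X : ℝ) ^ 2)) * ((10 ^ 30 * X ^ 12 : ℕ) : ℝ) / Real.pi) ^ d *
      (8 * d * Real.exp (-(Real.pi / (1 / (200 * (X : ℝ) ^ 2)) - 1) / 4)) * (100 * q)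
      ≤ Real.exp (45 * X + 5 * X ^ 2) * (Real.exp (3 + X) *
      Real.exp (-(150 * (X : ℝ) ^ 2) + 1)) * Real.exp (6 + X) := by
        refine mul_le_mul (mul_le_mul hK ?_ (by positivity) (by positivity)) h100 (by positivity)
          (by positivity)
        exact mul_le_mul h8 hE (by positivity) (by positivity)
    _ = 1 * G := by rw [one_mul]
    _ ≤ (plow d * Real.exp (30 * X)) * G := mul_le_mul_of_nonneg_right hA hG0
    _ = plow d * (Real.exp (30 * X) * (Real.exp (45 * X + 5 * X ^ 2) * (Real.exp (3 + X) *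
      Real.exp (-(150 * (X : ℝ) ^ 2) + 1))) * Real.exp (6 + X)) := by rw [hG]; ring
    _ ≤ plow d * 1 := mul_le_mul_of_nonneg_left key hc.le
    _ = plow d := mul_one _

/-- Packet ANA. -/
theorem ana (hTail : TailStmt) (hLow : LowStmt) (hSpp : SppStmt) (hLip : LipStmt)
    (hThn : ThnStmt) : AnaStmt := by
  intro d n q X hd hdn hq hX p m hpm hp0 hLC hMom hm hSup
  obtain ⟨h2d, h2q, h2, hdL⟩ := X_facts d n q X hd hq hX
  have hX2 : (2 : ℝ) ≤ X := by exact_mod_cast h2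
  have h2d' : 2 * (d : ℝ) ≤ X := by exact_mod_cast h2d
  have h2q' : 2 * (q : ℝ) ≤ X := by exact_mod_cast h2q
  have hq' : (1 : ℝ) ≤ q := by exact_mod_cast hq
  have hd' : (1 : ℝ) ≤ d := by exact_mod_cast hd
  have hn' : (1 : ℝ) ≤ n := by exact_mod_cast hd.trans hdn
  have hc := plow_pos d hd
  have hc1 := plow_le_one d hd
  have hpi := Real.pi_gt_three
  have hball : ∀ y : Fin d → ℝ, ∑ i, y i ^ 2 ≤ 1 / 10 ^ 12 → plow d ≤ p y :=
    hLow d hd p m hpm hp0 hLC hMom hm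
  have hB : ∀ y, p y ≤ (2 * (n : ℝ)) ^ d := hSpp d p (plow d) _ hpm hp0 hLC hc hball hSup
  have hp00 : plow d ≤ p 0 := hball 0 (by simp)
  refine ⟨hp00, ?_⟩
  have hA := A_bound d n q X hd hdn hq hX
  have hA0 : 0 ≤ Real.log ((2 * (n : ℝ)) ^ d / plow d) := by
    apply Real.log_nonneg
    rw [one_le_div hc]
    exact hp00.trans (hB 0)
  set A : ℝ := Real.log ((2 * (n : ℝ)) ^ d / plow d) with hAdef
  set h : ℝ := 1 / (200 * (X : ℝ) ^ 2) with hh
  set M : ℕ := 10 ^ 30 * X ^ 12 with hM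
  set ρ : ℝ := 1 / 10 ^ 9 / (X : ℝ) ^ 3 with hρ
  have hX0 : (0 : ℝ) < X := by linarith
  have hh0 : 0 < h := by positivity
  have hρ0 : 0 < ρ := by positivity
  have hM1 : 1 ≤ M := by
    rw [hM]
    exact Nat.one_le_iff_ne_zero.mpr (by positivity)
  have hρ1 : ρ ≤ 1 := by
    rw [hρ, div_le_one (by positivity)]
    have : (1 : ℝ) ≤ (X : ℝ) ^ 3 := one_le_pow₀ (by linarith)
    exact le_trans (by norm_num) this
  have hρR : ρ ≤ Real.pi / h := by
    refine hρ1.trans ?_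
    have e0 : Real.pi / h = Real.pi * (200 * (X : ℝ) ^ 2) := by
      rw [hh, div_div_eq_mul_div, div_one]
    rw [e0]
    have : (1 : ℝ) ≤ (X : ℝ) ^ 2 := one_le_pow₀ (by linarith)
    nlinarith
  obtain ⟨hT, hcube, hout⟩ := hThn d h ρ M hh0 hM1 hρ0.le hρR
  have hR0 : 0 ≤ Real.pi / h := by positivity
  have hτ := hTail d _ m hMom hm (Real.pi / h) hR0
  -- the local comparison
  have hε : ∀ y : Fin d → ℝ, (∀ i, |y i| ≤ ρ) → |p y - p 0| ≤ (15 / 1000 / q) * p 0 := by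
    intro y hy
    have hs1 : ∑ i, y i ^ 2 ≤ d * ρ ^ 2 := by
      calc ∑ i, y i ^ 2 ≤ ∑ _i : Fin d, ρ ^ 2 := by
            refine Finset.sum_le_sum fun i _ => ?_
            rw [← sq_abs (y i)]
            exact pow_le_pow_left₀ (abs_nonneg _) (hy i) 2
        _ = d * ρ ^ 2 := by simp
    have hρX : ρ * (X : ℝ) ^ 3 = 1 / 10 ^ 9 := by
      rw [hρ]
      field_simp
    have hdρ : (d : ℝ) * ρ ≤ 1 / 10 ^ 9 / (X : ℝ) ^ 2 / 2 := by
      rw [hρ]
      rw [div_div, div_div, le_div_iff₀ (by positivity), ← mul_div_assoc, div_mul_eq_mul_div,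
        div_le_iff₀ (by positivity)]
      have : (0 : ℝ) < (X : ℝ) ^ 2 := by positivity
      nlinarith
    have hs2 : Real.sqrt (∑ i, y i ^ 2) ≤ d * ρ := by
      rw [Real.sqrt_le_left (by positivity)]
      refine hs1.trans ?_
      rw [mul_pow]
      apply mul_le_mul_of_nonneg_right _ (by positivity)
      nlinarith
    have hdρ1 : (d : ℝ) * ρ ≤ 1 / 10 ^ 6 := by
      refine hdρ.trans ?_
      rw [div_div, div_le_iff₀ (by positivity)]
      have : (1 : ℝ) ≤ (X : ℝ) ^ 2 := one_le_pow₀ (by linarith)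
      nlinarith
    have hs3 : ∑ i, y i ^ 2 ≤ 1 / 10 ^ 12 := by
      have h0 : 0 ≤ ∑ i, y i ^ 2 := Finset.sum_nonneg fun i _ => sq_nonneg _
      have h1 : Real.sqrt (∑ i, y i ^ 2) ≤ 1 / 10 ^ 6 := hs2.trans hdρ1
      rw [Real.sqrt_le_left (by positivity)] at h1
      refine h1.trans (by norm_num)
    obtain ⟨hl, hu⟩ := hLip d p (plow d) _ hLC hc hball hB y hs3
    rw [← hAdef] at hl hu
    set s : ℝ := A * (10 ^ 6 * Real.sqrt (∑ i, y i ^ 2)) with hs
    have hs0 : 0 ≤ s := by positivity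
    have hsu : s ≤ 75 / 10000 / q := by
      have h1 : s ≤ (30 * X) * (10 ^ 6 * (1 / 10 ^ 9 / (X : ℝ) ^ 2 / 2)) := by
        rw [hs]
        refine mul_le_mul hA ?_ (by positivity) (by positivity)
        exact mul_le_mul_of_nonneg_left (hs2.trans hdρ) (by positivity)
      refine h1.trans ?_
      have e0 : (30 * (X : ℝ)) * (10 ^ 6 * (1 / 10 ^ 9 / (X : ℝ) ^ 2 / 2)) = 15 / 1000 / X := by
        field_simp
        norm_num
      rw [e0, div_le_div_iff₀ hX0 (by linarith)]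
      nlinarith
    have hs1' : s ≤ 1 := by
      refine hsu.trans ?_
      rw [div_le_one (by linarith)]
      linarith
    have hup := Real.abs_exp_sub_one_le (x := s) (by rwa [abs_of_nonneg hs0])
    have hlo := Real.abs_exp_sub_one_le (x := -s) (by rwa [abs_neg, abs_of_nonneg hs0])
    rw [abs_of_nonneg hs0] at hup
    rw [abs_neg, abs_of_nonneg hs0] at hlo
    have hup' := (abs_le.mp hup).2
    have hlo' := (abs_le.mp hlo).1
    have hp0' : 0 ≤ p 0 := hp0 0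
    have e1 : p y ≤ p 0 * (1 + 2 * s) :=
      hu.trans (mul_le_mul_of_nonneg_left (by linarith) hp0')
    have e2 : p 0 * (1 - 2 * s) ≤ p y :=
      (mul_le_mul_of_nonneg_left (by linarith) hp0').trans hl
    have e3 : p 0 * (2 * s) ≤ (15 / 1000 / q) * p 0 := by
      rw [mul_comm]
      refine mul_le_mul_of_nonneg_right ?_ hp0'
      have : (15 / 1000 / (q : ℝ)) = 2 * (75 / 10000 / q) := by ring
      rw [this]
      linarith
    rw [abs_le]
    constructor
    · nlinarith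
    · nlinarith
  have hεq : (15 / 1000 / (q : ℝ)) ≤ 1 := by
    rw [div_le_one (by linarith)]
    linarith
  have main := split_bound p hpm hp0 _ hB (TH h M) (continuous_TH d h M) _ hT ρ (Real.pi / h) hρR
    _ hcube hout (15 / 1000 / q) (by positivity) hεq hε hMom.1 _ hτ
  refine main.trans ?_
  have hη := eta_bound d n q X hd hdn hq hX
  have hτ2 := tail_bound d n q X hd hdn hq hX
  rw [← hh, ← hM] at hτ2
  rw [← hh, ← hM, ← hρ] at hη
  set η : ℝ := 2 * d * (M : ℝ) * Real.exp (-(M * h ^ 2 * ρ ^ 2 / 4)) with hηdef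
  have hη0 : 0 ≤ η := by positivity
  have hη1 : η ≤ 1 / (100 * q) := by
    have h4 : (1 : ℝ) ≤ (2 * (n : ℝ)) ^ d := one_le_pow₀ (by linarith)
    have h5 : η ≤ (2 * (n : ℝ)) ^ d * η := le_mul_of_one_le_left hη0 h4
    refine h5.trans (hη.trans ?_)
    exact div_le_div_of_nonneg_right hc1 (by positivity)
  have hcp : plow d / (100 * q) ≤ p 0 / (100 * q) :=
    div_le_div_of_nonneg_right hp00 (by positivity)
  have hp0' : 0 ≤ p 0 := hp0 0
  have f1 : (15 / 1000 / (q : ℝ) + η) * p 0 ≤ (15 / 1000 / q + 1 / (100 * q)) * p 0 :=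
    mul_le_mul_of_nonneg_right (by linarith) hp0'
  have f2 : (15 / 1000 / (q : ℝ) + 1 / (100 * q)) * p 0 + p 0 / (100 * q) + p 0 / (100 * q) ≤
      p 0 / (8 * q) := by
    have e0 : (15 / 1000 / (q : ℝ) + 1 / (100 * q)) * p 0 + p 0 / (100 * q) + p 0 / (100 * q) =
        (45 / 1000) * (p 0 / q) := by
      field_simp
      ring
    have e1 : p 0 / (8 * q) = (125 / 1000) * (p 0 / q) := by
      field_simp
      ring
    rw [e0, e1]
    have : 0 ≤ p 0 / q := by positivity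
    nlinarith
  linarith

end Pool.Agent.Helper50.FR
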